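import Mathlib

/-!
# MP_79ed51_nt: `g(p) ≥ 3` for infinitely many primes

For a prime `p` let `g(p)` be the number of `n` with `1 ≤ n ≤ p - 1` and `p ∣ n! + 1`. If `n` is odd and `p ∣ n! + 1` then
also `p ∣ (p - 1 - n)! + 1`; for `n ≡ 1 (mod 6)`, `n > 1`, the numbers `n`, `p - 1 - n`, `p - 1` are different.
-/

set_option autoImplicit false

namespace Pool.Agent.Results.MP_79ed51_nt.ThreeInfinitelyOften

open Finset

/-- The number of `n` with `1 ≤ n ≤ p - 1` and `p ∣ n! + 1`. -/
def g (p : ℕ) : ℕ := ((Icc 1 (p - 1)).filter fun n => p ∣ n.factorial + 1).card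

theorem cast_descFactorial {p : ℕ} [Fact p.Prime] : ∀ n : ℕ, n ≤ p - 1 →
    (((p - 1).descFactorial n : ℕ) : ZMod p) = (-1) ^ n * (n.factorial : ZMod p)
  | 0, _ => by simp
  | n + 1, h => by
    have hp : 1 ≤ p := (Fact.out : p.Prime).one_lt.le
    have ih := cast_descFactorial (p := p) n (by omega)
    have e : ((p - 1 - n : ℕ) : ZMod p) = -((n : ZMod p) + 1) := by
      rw [Nat.cast_sub (show n ≤ p - 1 by omega), Nat.cast_sub hp]
      simp
      ring
    rw [Nat.descFactorial_succ, Nat.cast_mul, ih, e, Nat.factorial_succ]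
    push_cast
    ring

theorem partner {p n : ℕ} (hp : p.Prime) (hn : n ≤ p - 1) (hodd : Odd n)
    (h : p ∣ n.factorial + 1) : p ∣ (p - 1 - n).factorial + 1 := by
  have : Fact p.Prime := ⟨hp⟩
  have h1 : (n.factorial : ZMod p) = -1 := by
    have := (ZMod.natCast_eq_zero_iff (n.factorial + 1) p).2 h
    push_cast at this
    exact eq_neg_of_add_eq_zero_left this
  have h2 := Nat.factorial_mul_descFactorial hn
  have h3 : (((p - 1 - n).factorial * (p - 1).descFactorial n : ℕ) : ZMod p) =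
      ((p - 1).factorial : ZMod p) := by rw [h2]
  rw [Nat.cast_mul, cast_descFactorial n hn, h1, ZMod.wilsons_lemma, hodd.neg_one_pow] at h3
  have h4 : ((p - 1 - n).factorial : ZMod p) = -1 := by simpa using h3
  rw [← ZMod.natCast_eq_zero_iff]
  push_cast
  rw [h4]
  ring

theorem three {n p : ℕ} (hn6 : n % 6 = 1) (hn : 1 < n) (hp : p.Prime)
    (h : p ∣ n.factorial + 1) : 3 ≤ g p := by
  have hpn : n < p := by
    by_contra hle
    have h1 : p ∣ n.factorial := Nat.dvd_factorial hp.pos (by omega)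
    have h2 : p ∣ 1 := (Nat.dvd_add_right h1).1 h
    exact hp.one_lt.ne' (Nat.dvd_one.1 h2)
  have hodd : Odd n := Nat.odd_iff.2 (by omega)
  have hp2 : p ≠ 2 := by omega
  have hpodd : p % 2 = 1 := Nat.odd_iff.1 (hp.odd_of_ne_two hp2)
  have hne1 : p ≠ 2 * n + 1 := by
    rintro rfl
    have h3 : 3 ∣ 2 * n + 1 := by omega
    have h4 := (Nat.prime_dvd_prime_iff_eq Nat.prime_three hp).1 h3
    omega
  have hpart := partner hp (by omega) hodd h
  have hW : p ∣ (p - 1).factorial + 1 := by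
    have : Fact p.Prime := ⟨hp⟩
    rw [← ZMod.natCast_eq_zero_iff]
    push_cast
    rw [ZMod.wilsons_lemma]
    ring
  have hsub : ({n, p - 1 - n, p - 1} : Finset ℕ) ⊆
      (Icc 1 (p - 1)).filter fun n => p ∣ n.factorial + 1 := by
    intro m hm
    simp only [Finset.mem_insert, Finset.mem_singleton] at hm
    simp only [Finset.mem_filter, Finset.mem_Icc]
    rcases hm with rfl | rfl | rfl
    · exact ⟨⟨by omega, by omega⟩, h⟩
    · exact ⟨⟨by omega, by omega⟩, hpart⟩
    · exact ⟨⟨by omega, le_rfl⟩, hW⟩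
  have hcard : ({n, p - 1 - n, p - 1} : Finset ℕ).card = 3 := by
    rw [Finset.card_eq_three]
    exact ⟨n, p - 1 - n, p - 1, by omega, by omega, by omega, rfl⟩
  unfold g
  rw [← hcard]
  exact Finset.card_le_card hsub

/-- For every `n > 1` with `n ≡ 1 (mod 6)` all prime divisors `p` of `n! + 1` satisfy `g(p) ≥ 3`; in particular
`g(p) ≥ 3` for infinitely many primes `p`. -/
theorem result :
    (∀ n : ℕ, n % 6 = 1 → 1 < n → ∀ p : ℕ, p.Prime → p ∣ n.factorial + 1 → 3 ≤ g p) ∧
      ∀ N : ℕ, ∃ p : ℕ, N < p ∧ p.Prime ∧ 3 ≤ g p := by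
  refine ⟨fun n h1 h2 p hp h => three h1 h2 hp h, fun N => ?_⟩
  have hne : (6 * N + 7).factorial + 1 ≠ 1 := by
    have := Nat.factorial_pos (6 * N + 7)
    omega
  have hp := Nat.minFac_prime hne
  have hd := Nat.minFac_dvd ((6 * N + 7).factorial + 1)
  refine ⟨_, ?_, hp, three (n := 6 * N + 7) (by omega) (by omega) hp hd⟩
  by_contra hle
  have h1 : Nat.minFac ((6 * N + 7).factorial + 1) ∣ (6 * N + 7).factorial :=
    Nat.dvd_factorial hp.pos (by omega)
  have h2 := (Nat.dvd_add_right h1).1 hd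
  exact hp.one_lt.ne' (Nat.dvd_one.1 h2)

end Pool.Agent.Results.MP_79ed51_nt.ThreeInfinitelyOften
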